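import Pool.Agent.Helper783_PC.Param

set_option autoImplicit false

/-!
# A maximal subgroup of a symmetric group which is not a perfect code

`cay S h1 hi` is the Cayley graph `Cay(G, S)` with the edges `{g, s g}`; `IsPerfectCodeIn Γ C` says
that each vertex outside `C` has exactly one neighbour in `C`; `IsPerfectCode A` says that the
subgroup `A` is a perfect code in `Cay(G, S)` for at least one inverse-closed `S ⊆ G ∖ {1}`. These
are the definitions of the problem. A maximal subgroup is a coatom of the lattice of subgroups.

The example: `p = 1129`, `q = p ^ 2`, `n = 1 + q + q ^ 2 + q ^ 3 = 2070923194509510244`, and `A` is the
group of all collineations of the projective space `PG(3, q)`, acting on the `n` points.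

* `A` is not a perfect code (`not_perfect`). `q - 1` is a multiple of `16` and `1129` is a square
  modulo `q - 1`, so that the Frobenius automorphism `φ` is the square of the multiplicative map
  `τ(s) = s ^ 1597` of the field, but it is not the square of an automorphism. The permutation
  `x : [v] ↦ [τ v]` is not in `A`, but `x ^ 2` is. The points at which `x` preserves the lines are the
  four coordinate points (`sp_bp`, `sp_imp`). If `x a` is an involution for some `a ∈ A`, then `a`
  permutes these points; so `a` is `[v] ↦ [k ↦ c k * σ (v (π k))]` by the fundamental theorem of
  projective geometry (`ftpg`), and `φ σ ^ 2 = 1`, a contradiction (`no_invol`). The index of `A ∩ A ^ x` in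
  `A` divides the index of the stabilizer of the frame of the coordinate points, which is odd,
  because the diagonal collineation with the entries `1, ζ, ζ ^ 2, ζ ^ 3`, `ζ` of order `16`, fixes
  exactly one frame (`odd_fr`). This contradicts the criterion of the problem, one direction of
  which is proved in `exists_invol`.
* `A` is maximal (`coatom_KK`). `n - 3` is a prime (`prime_l`). Let the group `G` contain `A`
  properly. The complement of an intersection of images of lines under elements of `G` is an orbit
  of its pointwise stabilizer in `G`; this and the sizes of the orbits of stabilizers in `A` show that
  `G` is `4`-transitive (`four_trans`, `geo`). So the order of `G` is divisible by the prime `n - 3`,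
  and `G` contains the alternating group (`alt_le`, as in a theorem of Jordan). `A` contains an odd
  permutation (`exists_odd`), so `G` is the symmetric group.
-/

namespace Pool.Agent.Results.MP_51f8fd_al.MaximalNotPerfect

open Pool.Agent.Helper783_PC

/-- **There are a positive integer `n` and a maximal subgroup `A` of `S_n` such that `A` is not a
perfect code of `S_n`.** -/
theorem result : ∃ (n : ℕ) (A : Subgroup (Equiv.Perm (Fin n))),
    0 < n ∧ IsCoatom A ∧ ¬ IsPerfectCode A := final

end Pool.Agent.Results.MP_51f8fd_al.MaximalNotPerfect
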